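import Pool.Agent.Run7.h886.SX.Fin

/-!
# Products of Jacobians of random plane curves and of random curves on surfaces: Sato-Tate averages

Let `C_l`, `l ∈ Λ`, be smooth curves over `ℚ`, either plane curves of degree `δ_l`, or sections of degree `δ_l` of fixed surfaces `W_l`
with `H^1(W_l) = 0` (for instance quadrics, cubic surfaces, K3 surfaces, complete intersections), `J_l` their Jacobians, and
`A = ∏_l J_l^(r_l)` with any multiplicities `r_l ≥ 0`. Let `x_(l, j)(p)` be the trace of the `j`-th power of Frobenius at `p` on `H^1(J_l) = H^1(C_l)`,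
divided by `p ^ (j / 2)`. For almost all `C_l` the Sato-Tate group of `A` is the product of the `USp(2 g_l)`, and the Sato-Tate
conjecture for `A` says that every polynomial in the `x_(l, j)` has over the primes the average predicted by the Haar measure of this group. For
polynomials of weight at most half the rank this is the mean value for independent normal variables `x_(l, j)` of variance `j` and of mean `-1`
(`j` even) or `0` (`j` odd) (Diaconis, Shahshahani).

It is proved, unconditionally, for almost all tuples of curves and all polynomials of weight at most `(δ_l + 1) / 2` in the `x_(l, j)` for each `l`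
(`x_(l, j)` has weight `j`), with a square root error term, in all intervals of primes and for all bounded weights. In particular, for
`k ≤ (δ_l + 1) / 2`, the average of the traces of Frobenius on the cohomology `H^k(A)`, divided by `p ^ (k / 2)`, is `0` if `k` is
odd and the binomial coefficient `C(M + k / 2 - 1, k / 2)`, `M = ∑_l r_l (r_l + 1) / 2`, if `k` is even; this is the dimension of the space of the
Hodge classes in `H^k(A)` (the polynomials of degree `k / 2` in the `M` independent classes of divisors).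

The monomials are from helper3 (`Run7/h3/ST`, hand-in MP_32ceeb_nt.PowerTraces). New here: arbitrary polynomials, curves on surfaces with
the centre `q + 1`, and the evaluation for `H^k(A)` by integration by parts.
-/

set_option autoImplicit false

namespace Pool.Agent.Results.MP_c481b3_nt.CohomologyOfJacobians

open Finset MvPolynomial
open Pool.Agent.Y722.HS (Mon form)
open Run7.h886.SX

/-- The trace of the Frobenius automorphism of the field with `q = p ^ j` elements on `H^1(C)`, divided by `√q`, for the curve `C` defined by the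
forms in `S` and the form `F`: `(q + 1 - #C(F_q)) / √q`. -/
noncomputable def frob {n : ℕ} (S : Set (MvPolynomial (Fin (n + 1)) ℤ)) (F : MvPolynomial (Fin (n + 1)) ℤ) (p j : ℕ) : ℝ :=
  ((p : ℝ) ^ j + 1 - points p j (S ∪ {F})) / Real.sqrt p ^ j

/-- The trace on the exterior power `H^k(A)` of `H^1(A)`, if `a j` is the trace of the `j`-th power on `H^1(A)`: the elementary symmetric function
`e_k` in terms of the power sums `a j`, `j ≥ 1` (`k e_k = ∑_(1 ≤ j ≤ k) (-1)^(j - 1) a_j e_(k - j)`). -/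
noncomputable def exterior (a : ℕ → ℝ) (k : ℕ) : ℝ := sym (fun i => (-1) ^ i * a (i + 1)) k

/-- The numbers `x t p l j` (`t`: the coefficients, `p ∈ 𝒢 t`: a prime, `l ∈ Λ`, `j ≥ 1`) have on average over `p`, for almost all `t`:
(1) the mean values of all polynomials `f` in the `x_(l, j)` of weight at most `(δ l + 1) / 2` in each block `l` that normal variables have
(the variable `(l, i)` of `f` stands for `x_(l, i + 1)`, of weight `i + 1`);
(2) for `A = ∏_l J_l^(r_l)` and `k ≤ (δ l + 1) / 2` the mean value of the traces on `H^k(A)` that is stated above. -/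
def SatoTateAverages {Λ κ : Type} [Fintype Λ] [DecidableEq Λ] [Fintype κ] [DecidableEq κ] (ε : ℝ) (δ : Λ → ℕ)
    (𝒢 : (κ → ℤ) → Set ℕ) (x : (κ → ℤ) → ℕ → Λ → ℕ → ℝ) : Prop :=
  (∀ f : MvPolynomial (Λ × ℕ) ℝ, (∀ l, 2 * f.weightedTotalDegree (blk l) ≤ δ l + 1) →
    AlmostAll ε (mean (fun _ => -1) f) 𝒢 fun t p => eval (fun v => x t p v.1 (v.2 + 1)) f) ∧
  ∀ (r : Λ → ℕ) (k : ℕ), (∀ l, 2 * k ≤ δ l + 1) →
    AlmostAll ε (if Even k then (Nat.multichoose (∑ l, (r l + 1).choose 2) (k / 2) : ℝ) else 0) 𝒢 fun t p =>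
      exterior (fun j => ∑ l, (r l : ℝ) * x t p l j) k

lemma frob_eq {n : ℕ} (S : Set (MvPolynomial (Fin (n + 1)) ℤ)) (F : MvPolynomial (Fin (n + 1)) ℤ) (p j : ℕ) :
    frob S F p j = trace S F 2 ((p : ℝ) ^ j + 1) p j := by
  unfold frob trace
  rw [show 2 - 1 = 1 from rfl, pow_one, mul_one]
  ring

lemma of_mono {Λ κ : Type} [Fintype Λ] [DecidableEq Λ] [Fintype κ] [DecidableEq κ] {ε : ℝ} {δ : Λ → ℕ}
    {𝒢 : (κ → ℤ) → Set ℕ} {x : (κ → ℤ) → ℕ → Λ → ℕ → ℝ}
    (h : ∀ (J : ℕ) (a : Λ → ℕ → ℕ), (∀ l, 2 * ∑ j ∈ Icc 1 J, j * a l j ≤ δ l + 1) →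
      AlmostAll ε (∏ l, ∏ j ∈ Icc 1 J, moment (-1) j (a l j)) 𝒢 fun t p => ∏ l, ∏ j ∈ Icc 1 J, x t p l j ^ a l j) :
    SatoTateAverages ε δ 𝒢 x :=
  ⟨fun f hf => poly (fun _ => -1) δ x h f hf, fun r k hk => altern δ x h r k hk⟩

lemma sgn1 : (-1 : ℝ) ^ (2 - 1) = -1 := by norm_num

lemma cen2 (y : ℝ) : ∑ i ∈ range 2, y ^ i = y + 1 := by
  rw [sum_range_succ, sum_range_one, pow_zero, pow_one, add_comm]

lemma root {p : ℕ} (hp : p.Prime) (j : ℕ) : 1 ≤ Real.sqrt p ^ j ∧ Real.sqrt p ^ j * Real.sqrt p ^ j = (p : ℝ) ^ j := by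
  have h2 : (1 : ℝ) ≤ p := by exact_mod_cast hp.one_lt.le
  refine ⟨one_le_pow₀ (Real.one_le_sqrt.2 h2), ?_⟩
  rw [← mul_pow, Real.mul_self_sqrt (by linarith)]

lemma bound1 {p : ℕ} (hp : p.Prime) (j : ℕ) {N C₀ : ℝ} (h : |N - ((p : ℝ) ^ j) ^ 2| ≤ C₀ * (p : ℝ) ^ j) :
    |N - (p : ℝ) ^ (j * 2)| ≤ (|C₀| + 1) * ((p : ℝ) ^ (j * 2) / Real.sqrt p ^ j) := by
  obtain ⟨h2, h3⟩ := root hp j
  rw [pow_mul]
  refine h.trans ?_
  obtain ⟨y, hy⟩ : ∃ y, y = Real.sqrt p ^ j := ⟨_, rfl⟩
  rw [← hy] at h2 h3 ⊢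
  have hy0 : 0 < y := by linarith
  rw [← h3]
  have h5 : (y * y) ^ 2 / y = y * y * y := by field_simp
  rw [h5]
  have h6 : C₀ ≤ |C₀| + 1 := by have := le_abs_self C₀; linarith
  have h7 : 0 ≤ y * y := by positivity
  calc C₀ * (y * y) ≤ (|C₀| + 1) * (y * y) := mul_le_mul_of_nonneg_right h6 h7
    _ ≤ (|C₀| + 1) * (y * y * y) := by
      refine mul_le_mul_of_nonneg_left ?_ (by positivity)
      exact le_mul_of_one_le_right h7 h2

lemma bound2 {p : ℕ} (hp : p.Prime) (j : ℕ) {N C₀ : ℝ} (h : |N - ((p : ℝ) ^ j) ^ 2| ≤ C₀ * (p : ℝ) ^ j) :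
    |N / (p : ℝ) ^ j - ((p : ℝ) ^ j + 1)| ≤ (|C₀| + 1) * (Real.sqrt p ^ (j * (2 - 1)) / Real.sqrt p ^ j) := by
  obtain ⟨h2, h3⟩ := root hp j
  obtain ⟨y, hy⟩ : ∃ y, y = Real.sqrt p ^ j := ⟨_, rfl⟩
  rw [show (2 : ℕ) - 1 = 1 from rfl, mul_one, ← hy]
  rw [← hy] at h2 h3
  rw [← h3] at h ⊢
  have hy0 : 0 < y := by linarith
  have hyy : 0 < y * y := by positivity
  rw [div_self hy0.ne', mul_one]
  have h5 : N / (y * y) - (y * y + 1) = (N - (y * y) ^ 2) / (y * y) - 1 := by
    field_simp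
    ring
  rw [h5]
  refine (abs_sub _ _).trans ?_
  rw [abs_one, abs_div, abs_of_pos hyy]
  have h6 : |N - (y * y) ^ 2| / (y * y) ≤ C₀ := by
    rw [div_le_iff₀ hyy]
    exact h
  have := le_abs_self C₀
  linarith

/-- **The Sato-Tate averages for almost all products of Jacobians of plane curves and of curves on surfaces.** -/
theorem result :
    -- plane curves `F_l = 0`, primes of good reduction
    (∀ {Λ : Type} [Fintype Λ] [DecidableEq Λ] (δ : Λ → ℕ) (ε : ℝ), (∀ l, 1 ≤ δ l) → 0 < ε → ε ≤ 1 →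
      SatoTateAverages ε δ (fun t : (Σ l, Mon 2 (δ l)) → ℤ => {p | ∀ l, Good (form fun m => t ⟨l, m⟩) p})
        fun t p l j => frob ∅ (form fun m => t ⟨l, m⟩) p j) ∧
    -- curves `W_l ∩ {F_l = 0}` on surfaces `W_l` with `#W_l(F_q) = q ^ 2 + O(q)`, all primes
    (∀ {Λ : Type} [Fintype Λ] [DecidableEq Λ] (n δ : Λ → ℕ) (S : ∀ l, Set (MvPolynomial (Fin (n l + 1)) ℤ)) (C₀ ε : ℝ),
      (∀ l, ∀ G ∈ S l, ∃ d, G.IsHomogeneous d) →
      (∀ l, ∀ p : ℕ, p.Prime → ∀ j, 1 ≤ j → |(points p j (S l) : ℝ) - ((p : ℝ) ^ j) ^ 2| ≤ C₀ * (p : ℝ) ^ j) → 0 < ε → ε ≤ 1 →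
      SatoTateAverages ε δ (fun _ : (Σ l, Mon (n l) (δ l)) → ℤ => Set.univ)
        fun t p l j => frob (S l) (form fun m => t ⟨l, m⟩) p j) := by
  refine ⟨fun {Λ} _ _ δ ε hδ hε hε1 => of_mono fun J a ha => ?_, fun {Λ} _ _ n δ S C₀ ε hS hW hε hε1 => of_mono fun J a ha => ?_⟩
  · have h1 := mono_hyper (fun _ => 2) δ J a ε (fun l => le_rfl) hδ ha hε hε1
    simp only [sgn1, cen2] at h1
    simp only [frob_eq]
    exact h1
  · have h1 := mono_sections n (fun _ => 2) δ S (fun _ p j => (p : ℝ) ^ j + 1) J a (|C₀| + 1) ε (fun l => le_rfl) hS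
      (fun l p hp j hj => bound1 hp j (hW l p hp j hj)) (fun l p hp j hj => bound2 hp j (hW l p hp j hj)) ha hε hε1
    simp only [sgn1] at h1
    simp only [frob_eq]
    exact h1

end Pool.Agent.Results.MP_c481b3_nt.CohomologyOfJacobians
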