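import Mathlib
import Pool.Agent.Run7.h988.ST.Surf3

/-!
# The Sato-Tate conjecture for generic abelian surfaces: signs and sizes of the coefficients

Let `K` be a totally real field and `A` an abelian surface over `K` whose endomorphisms over an algebraic closure are only
the integers. Then `ST(A) = USp(4)`, and this is the case of dimension 2 in which the conjecture is open for every such
`A`. The class of a prime `v` of good reduction is given by two angles `φ v`, `ψ v`; the normalised `L`-polynomial is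
`1 - a T + b T² - a T³ + T⁴` with `a = 2 cos φ + 2 cos ψ` and `b = 2 + 4 cos φ cos ψ`. If `A` is the Jacobian of a curve
`C` of genus 2, then `#C(F_v) = N v + 1 - a √(N v)`.

Let `L / K` be an abelian extension with the Galois group `G`, `σ v ∈ G` the Frobenius element. We prove, for every
`g ∈ G`, with natural densities relative to the set of primes `v` with `σ v = g`:

* the mean values of `a`, `a²`, `b`, `b²`, `a b` are those of the Haar measure of `USp(4)`: `0, 1, 1, 2, 0`;
* `a > 0` and `a < 0` have both a lower density of at least `1/16`;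
* `a > 1/4` and `a < -1/4` have both a lower density of at least `1/48`;
* the lower mean value of `|a|` is at least `17/48`;
* `b < 2` has a lower density of at least `1/2`, `b < 1` of at least `1/24`, `b > 1` of at least `1/40`;
* `|a| ≥ t` has an upper density of at most `1/t²`, and of at most `1/(1 + (2t-3)²)` if `t > 3/2`.

What is used is listed in the structure `Surface` (`Pool/Agent/Run7/h988/ST/Surf2.lean`), and it is known: the Euler products
of `V ⊗ χ`, where `V` is one of the irreducible representations of `USp(4)` of dimension `1, 4, 5, 10, 14, 16` and `χ` a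
character of `G`, have local continuations without zeros and poles at all points of the line `Re s = 1` (except
if both are trivial). Indeed `A` is potentially modular (Boxer, Calegari, Gee, Pilloni): over a totally real Galois extension
`K'` of `K` it belongs to a cuspidal automorphic representation `π` of `GL(4)`. Its exterior square is automorphic by
Kim, and equal to `1 ⊞ Π` with a cuspidal `Π` of `GL(5)` (for all primes by Henniart). The Rankin-Selberg
`L`-functions of `π × π`, `π × Π`, `Π × Π` are those of `1 + 5 + 10`, `4 + 16`, `1 + 10 + 14`; the theorems of Jacquet,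
Piatetski-Shapiro, Shalika and Shahidi apply to them and to their twists; `K'` and `L` are brought down to `K` with
Brauer's theorem.

Method: with the Tauberian theorem of the starting file `Pool/Agent/TH553/ST/Taub3.lean` these `L`-functions
give the mean values of all quadratic polynomials in `a`, `b` in the class of `g`. The pair `(a, b)` lies in the region
`2 |a| - 2 ≤ b ≤ 2 + a²/4`, and the rest are inequalities between quadratic polynomials and the functions above
on this region; they were found by linear programming.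
-/

set_option autoImplicit false

namespace Pool.Agent.Results.MP_c481b3_nt.GenericSurfaces

open NumberField IsDedekindDomain Filter Topology
open Run7.h988.ST (Surface)

variable {K : Type} [Field K] [NumberField K] {G : Type} [AddCommGroup G] [Finite G]

/-- the first coefficient of the normalised `L`-polynomial -/
noncomputable def coeffA (φ ψ : HeightOneSpectrum (𝓞 K) → ℝ) (v : HeightOneSpectrum (𝓞 K)) : ℝ :=
  2 * Real.cos (φ v) + 2 * Real.cos (ψ v)

/-- the second coefficient of the normalised `L`-polynomial -/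
noncomputable def coeffB (φ ψ : HeightOneSpectrum (𝓞 K) → ℝ) (v : HeightOneSpectrum (𝓞 K)) : ℝ :=
  2 + 4 * (Real.cos (φ v) * Real.cos (ψ v))

/-- the mean value of `f` over the primes `v` with `σ v = g` and of norm at most `N` -/
noncomputable def mean (σ : HeightOneSpectrum (𝓞 K) → G) (g : G)
    (f : HeightOneSpectrum (𝓞 K) → ℝ) (N : ℕ) : ℝ :=
  (∑ᶠ v : {v : HeightOneSpectrum (𝓞 K) // Ideal.absNorm v.asIdeal ≤ N ∧ σ v = g}, f v) /
    Nat.card {v : HeightOneSpectrum (𝓞 K) // Ideal.absNorm v.asIdeal ≤ N ∧ σ v = g}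

/-- the proportion of the primes with `P` among the primes `v` with `σ v = g` and of norm at most `N` -/
noncomputable def freq (σ : HeightOneSpectrum (𝓞 K) → G) (g : G)
    (P : HeightOneSpectrum (𝓞 K) → Prop) (N : ℕ) : ℝ :=
  (Nat.card {v : HeightOneSpectrum (𝓞 K) // Ideal.absNorm v.asIdeal ≤ N ∧ σ v = g ∧ P v} : ℝ) /
    Nat.card {v : HeightOneSpectrum (𝓞 K) // Ideal.absNorm v.asIdeal ≤ N ∧ σ v = g}

open Run7.h911.NT (avg card_pos) in
open Run7.h988.ST (cls) in
theorem mean_eq (σ : HeightOneSpectrum (𝓞 K) → G) (g : G) (f : HeightOneSpectrum (𝓞 K) → ℝ) :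
    ∀ᶠ N : ℕ in atTop, mean σ g f N =
      avg (fun v => cls g (σ v) * f v) N / avg (fun v => cls g (σ v)) N := by
  classical
  filter_upwards [card_pos (K := K)] with N hN
  unfold mean avg
  have h1 : Nat.card {v : HeightOneSpectrum (𝓞 K) // Ideal.absNorm v.asIdeal ≤ N ∧ σ v = g} =
      ((Pool.Agent.W540.BE.upto K N).filter fun v => σ v = g).card := Nat.subtype_card _ fun v => by
    rw [Finset.mem_filter]
    exact and_congr_left fun _ => Pool.Agent.W540.BE.mem_upto
  have h2 : (∑ᶠ v : {v : HeightOneSpectrum (𝓞 K) // Ideal.absNorm v.asIdeal ≤ N ∧ σ v = g}, f v) =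
      ∑ v ∈ (Pool.Agent.W540.BE.upto K N).filter fun v => σ v = g, f v := by
    rw [finsum_subtype_eq_finsum_cond (f := f)
      (p := fun v => Ideal.absNorm v.asIdeal ≤ N ∧ σ v = g), ← finsum_mem_coe_finset]
    refine finsum_congr fun v => finsum_congr_Prop (propext ?_) fun _ => rfl
    rw [Finset.mem_coe, Finset.mem_filter]
    exact and_congr_left fun _ => Pool.Agent.W540.BE.mem_upto.symm
  have h3 : ∀ F : HeightOneSpectrum (𝓞 K) → ℝ, ∑ v ∈ Pool.Agent.W540.BE.upto K N,
      cls g (σ v) * F v = ∑ v ∈ (Pool.Agent.W540.BE.upto K N).filter fun v => σ v = g, F v := by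
    intro F
    rw [Finset.sum_filter]
    refine Finset.sum_congr rfl fun v _ => ?_
    unfold cls
    split_ifs <;> simp
  have h4 : ∑ v ∈ Pool.Agent.W540.BE.upto K N, cls g (σ v) =
      (((Pool.Agent.W540.BE.upto K N).filter fun v => σ v = g).card : ℝ) := by
    have := h3 fun _ => 1
    simp only [mul_one, Finset.sum_const, nsmul_eq_mul] at this
    exact this
  have hp : (((Pool.Agent.W540.BE.upto K N).card : ℕ) : ℝ) ≠ 0 := by exact_mod_cast hN.ne'
  rw [h1, h2, h3, h4, div_div_div_cancel_right₀ hp]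

open Classical in
theorem freq_eq (σ : HeightOneSpectrum (𝓞 K) → G) (g : G) (P : HeightOneSpectrum (𝓞 K) → Prop)
    (N : ℕ) : freq σ g P N = mean σ g (fun v => if P v then 1 else 0) N := by
  unfold freq mean
  congr 1
  have h1 : Nat.card {v : HeightOneSpectrum (𝓞 K) // Ideal.absNorm v.asIdeal ≤ N ∧ σ v = g ∧ P v} =
      ((Pool.Agent.W540.BE.upto K N).filter fun v => σ v = g ∧ P v).card :=
    Nat.subtype_card _ fun v => by
      rw [Finset.mem_filter]
      exact and_congr_left fun _ => Pool.Agent.W540.BE.mem_upto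
  have h2 : (∑ᶠ v : {v : HeightOneSpectrum (𝓞 K) // Ideal.absNorm v.asIdeal ≤ N ∧ σ v = g},
      (if P v then (1 : ℝ) else 0)) =
      ∑ v ∈ (Pool.Agent.W540.BE.upto K N).filter fun v => σ v = g, (if P v then (1 : ℝ) else 0) := by
    rw [finsum_subtype_eq_finsum_cond (f := fun v => if P v then (1 : ℝ) else 0)
      (p := fun v => Ideal.absNorm v.asIdeal ≤ N ∧ σ v = g), ← finsum_mem_coe_finset]
    refine finsum_congr fun v => finsum_congr_Prop (propext ?_) fun _ => rfl
    rw [Finset.mem_coe, Finset.mem_filter]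
    exact and_congr_left fun _ => Pool.Agent.W540.BE.mem_upto.symm
  rw [h1, h2, ← Finset.sum_filter, Finset.filter_filter, Finset.sum_const, nsmul_eq_mul, mul_one]

open Run7.h988.ST (ca cc)

omit [NumberField K] in
theorem coeffA_eq (φ ψ : HeightOneSpectrum (𝓞 K) → ℝ) (v : HeightOneSpectrum (𝓞 K)) :
    coeffA φ ψ v = ca (φ v) (ψ v) := rfl

omit [NumberField K] in
theorem coeffB_eq (φ ψ : HeightOneSpectrum (𝓞 K) → ℝ) (v : HeightOneSpectrum (𝓞 K)) :
    coeffB φ ψ v = cc (φ v) (ψ v) + 1 := by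
  unfold coeffB cc Run7.h988.ST.xx
  ring

variable {φ ψ : HeightOneSpectrum (𝓞 K) → ℝ} {σ : HeightOneSpectrum (𝓞 K) → G}

open Run7.h911.NT (avg) in
open Run7.h988.ST (cls cls_law) in
theorem cls_pos (h : Surface φ ψ σ) (g : G) :
    ∀ᶠ N : ℕ in atTop, 0 < avg (fun v => cls g (σ v)) N := by
  have hG : (0 : ℝ) < Nat.card G := by exact_mod_cast Nat.card_pos
  exact (cls_law h g).eventually (lt_mem_nhds (by positivity))

theorem lower (h : Surface φ ψ σ) (g : G) {α β γ δ ε' ζ : ℝ} {F : HeightOneSpectrum (𝓞 K) → ℝ}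
    (hF : ∀ v, α + β * ca (φ v) (ψ v) + γ * cc (φ v) (ψ v) + δ * ca (φ v) (ψ v) ^ 2 +
      ε' * cc (φ v) (ψ v) ^ 2 + ζ * (ca (φ v) (ψ v) * cc (φ v) (ψ v)) ≤ F v)
    {c : ℝ} (hc : α + δ + ε' = c) {ε : ℝ} (hε : 0 < ε) :
    ∀ᶠ N : ℕ in atTop, c - ε ≤ mean σ g F N := by
  filter_upwards [Run7.h988.ST.lower h g hF hc hε, mean_eq σ g F, cls_pos h g] with N h1 h2 h3
  rw [h2, le_div_iff₀ h3]
  exact h1

theorem upper (h : Surface φ ψ σ) (g : G) {α β γ δ ε' ζ : ℝ} {F : HeightOneSpectrum (𝓞 K) → ℝ}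
    (hF : ∀ v, F v ≤ α + β * ca (φ v) (ψ v) + γ * cc (φ v) (ψ v) + δ * ca (φ v) (ψ v) ^ 2 +
      ε' * cc (φ v) (ψ v) ^ 2 + ζ * (ca (φ v) (ψ v) * cc (φ v) (ψ v)))
    {c : ℝ} (hc : α + δ + ε' = c) {ε : ℝ} (hε : 0 < ε) :
    ∀ᶠ N : ℕ in atTop, mean σ g F N ≤ c + ε := by
  filter_upwards [Run7.h988.ST.upper h g hF hc hε, mean_eq σ g F, cls_pos h g] with N h1 h2 h3
  rw [h2, div_le_iff₀ h3]
  exact h1

theorem exact (h : Surface φ ψ σ) (g : G) {F : HeightOneSpectrum (𝓞 K) → ℝ} (α β γ δ ε' ζ : ℝ)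
    (hF : ∀ v, F v = α + β * ca (φ v) (ψ v) + γ * cc (φ v) (ψ v) + δ * ca (φ v) (ψ v) ^ 2 +
      ε' * cc (φ v) (ψ v) ^ 2 + ζ * (ca (φ v) (ψ v) * cc (φ v) (ψ v)))
    {c : ℝ} (hc : α + δ + ε' = c) : Tendsto (mean σ g F) atTop (𝓝 c) := by
  rw [Metric.tendsto_nhds]
  intro ε hε
  filter_upwards [lower h g (fun v => (hF v).ge) hc (half_pos hε),
    upper h g (fun v => (hF v).le) hc (half_pos hε)] with N h1 h2
  rw [Real.dist_eq, abs_lt]
  constructor <;> linarith

/-- **Signs and sizes of the coefficients of generic abelian surfaces.** -/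
theorem result (h : Surface φ ψ σ) (g : G) :
    -- mean values
    (Tendsto (mean σ g fun v => coeffA φ ψ v) atTop (𝓝 0) ∧
      Tendsto (mean σ g fun v => coeffA φ ψ v ^ 2) atTop (𝓝 1) ∧
      Tendsto (mean σ g fun v => coeffB φ ψ v) atTop (𝓝 1) ∧
      Tendsto (mean σ g fun v => coeffB φ ψ v ^ 2) atTop (𝓝 2) ∧
      Tendsto (mean σ g fun v => coeffA φ ψ v * coeffB φ ψ v) atTop (𝓝 0)) ∧
    ∀ ε : ℝ, 0 < ε →
      -- both signs
      (∀ᶠ N : ℕ in atTop, 1 / 16 - ε ≤ freq σ g (fun v => 0 < coeffA φ ψ v) N) ∧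
      (∀ᶠ N : ℕ in atTop, 1 / 16 - ε ≤ freq σ g (fun v => coeffA φ ψ v < 0) N) ∧
      (∀ᶠ N : ℕ in atTop, 1 / 48 - ε ≤ freq σ g (fun v => 1 / 4 < coeffA φ ψ v) N) ∧
      (∀ᶠ N : ℕ in atTop, 1 / 48 - ε ≤ freq σ g (fun v => coeffA φ ψ v < -(1 / 4)) N) ∧
      -- the absolute value
      (∀ᶠ N : ℕ in atTop, 17 / 48 - ε ≤ mean σ g (fun v => |coeffA φ ψ v|) N) ∧
      -- the second coefficient
      (∀ᶠ N : ℕ in atTop, 1 / 2 - ε ≤ freq σ g (fun v => coeffB φ ψ v < 2) N) ∧
      (∀ᶠ N : ℕ in atTop, 1 / 24 - ε ≤ freq σ g (fun v => coeffB φ ψ v < 1) N) ∧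
      (∀ᶠ N : ℕ in atTop, 1 / 40 - ε ≤ freq σ g (fun v => 1 < coeffB φ ψ v) N) ∧
      -- large values
      (∀ t : ℝ, 0 < t → ∀ᶠ N : ℕ in atTop,
        freq σ g (fun v => t ≤ |coeffA φ ψ v|) N ≤ 1 / t ^ 2 + ε) ∧
      (∀ t : ℝ, 3 / 2 < t → ∀ᶠ N : ℕ in atTop,
        freq σ g (fun v => t ≤ |coeffA φ ψ v|) N ≤ 1 / (1 + (2 * t - 3) ^ 2) + ε) := by
  classical
  simp only [freq_eq, coeffB_eq, coeffA_eq]
  refine ⟨⟨?_, ?_, ?_, ?_, ?_⟩, fun ε hε => ⟨?_, ?_, ?_, ?_, ?_, ?_, ?_, ?_, fun t ht => ?_,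
    fun t ht => ?_⟩⟩
  · exact exact h g 0 1 0 0 0 0 (fun v => by ring) (by ring)
  · exact exact h g 0 0 0 1 0 0 (fun v => by ring) (by ring)
  · exact exact h g 1 0 1 0 0 0 (fun v => by ring) (by ring)
  · exact exact h g 1 0 2 0 1 0 (fun v => by ring) (by ring)
  · exact exact h g 0 1 0 0 0 1 (fun v => by ring) (by ring)
  · refine lower h g (β := 69 / 256) (γ := -(3 / 64)) (ζ := -(9 / 256)) (fun v => ?_)
      (show -(1 / 128) + 9 / 64 + -(9 / 128) = (1 / 16 : ℝ) by norm_num) hε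
    have := Run7.h988.ST.sign_ineq (Run7.h988.ST.reg (φ v) (ψ v))
    convert this using 1
  · refine lower h g (β := -(69 / 256)) (γ := -(3 / 64)) (ζ := 9 / 256) (fun v => ?_)
      (show -(1 / 128) + 9 / 64 + -(9 / 128) = (1 / 16 : ℝ) by norm_num) hε
    have := Run7.h988.ST.sign_ineq (Run7.h988.ST.reg (φ v) (ψ v)).neg
    simp only [neg_pos] at this
    refine le_trans (le_of_eq ?_) (this.trans (le_of_eq ?_))
    · ring
    · congr
  · refine lower h g (β := 1 / 24) (γ := -(1 / 240)) (ζ := 1 / 60) (fun v => ?_)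
      (show -(1 / 80) + 1 / 30 + 0 = (1 / 48 : ℝ) by norm_num) hε
    have := Run7.h988.ST.quarter_ineq (Run7.h988.ST.reg (φ v) (ψ v))
    convert this using 1
  · refine lower h g (β := -(1 / 24)) (γ := -(1 / 240)) (ζ := -(1 / 60)) (fun v => ?_)
      (show -(1 / 80) + 1 / 30 + 0 = (1 / 48 : ℝ) by norm_num) hε
    have := Run7.h988.ST.quarter_ineq (Run7.h988.ST.reg (φ v) (ψ v)).neg
    refine le_trans (le_of_eq ?_) (this.trans (le_of_eq ?_))
    · ring
    · have e : ((1 : ℝ) / 4 < -ca (φ v) (ψ v)) ↔ (ca (φ v) (ψ v) < -(1 / 4)) := by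
        constructor <;> intro <;> linarith
      simp only [e]
  · refine lower h g (fun v => Run7.h988.ST.abs_ineq (Run7.h988.ST.reg (φ v) (ψ v)))
      (show -(1 / 48) + 9 / 16 + -(3 / 16) = (17 / 48 : ℝ) by norm_num) hε
  · refine lower h g (β := 0) (γ := -(1 / 2)) (ζ := 0) (fun v => ?_)
      (show 3 / 4 + 0 + -(1 / 4) = (1 / 2 : ℝ) by norm_num) hε
    have := Run7.h988.ST.c_one_ineq (a := ca (φ v) (ψ v)) (c := cc (φ v) (ψ v))
    refine this.trans (le_of_eq ?_)
    have e : (cc (φ v) (ψ v) < 1) ↔ (cc (φ v) (ψ v) + 1 < 2) := by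
      constructor <;> intro <;> linarith
    simp only [e]
  · refine lower h g (β := 0) (γ := -(5 / 24)) (ζ := 0) (fun v => ?_)
      (show 0 + 0 + 1 / 24 = (1 / 24 : ℝ) by norm_num) hε
    have := Run7.h988.ST.c_neg_ineq (Run7.h988.ST.reg (φ v) (ψ v))
    refine this.trans (le_of_eq ?_)
    have e : (cc (φ v) (ψ v) < 0) ↔ (cc (φ v) (ψ v) + 1 < 1) := by
      constructor <;> intro <;> linarith
    simp only [e]
  · refine lower h g (β := 0) (γ := 3 / 40) (ζ := 0) (fun v => ?_)
      (show 0 + 0 + 1 / 40 = (1 / 40 : ℝ) by norm_num) hε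
    have := Run7.h988.ST.c_pos_ineq (Run7.h988.ST.reg (φ v) (ψ v))
    refine this.trans (le_of_eq ?_)
    have e : (0 < cc (φ v) (ψ v)) ↔ (1 < cc (φ v) (ψ v) + 1) := by
      constructor <;> intro <;> linarith
    simp only [e]
  · refine upper h g (β := 0) (γ := 0) (ζ := 0) (fun v => ?_)
      (show 0 + 1 / t ^ 2 + 0 = 1 / t ^ 2 by ring) hε
    have := Run7.h988.ST.cheb_ineq (a := ca (φ v) (ψ v)) (cc (φ v) (ψ v)) ht
    convert this using 1
  · have hs : 0 < 2 * t - 3 := by linarith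
    have hp : 0 < 1 + (2 * t - 3) ^ 2 := by positivity
    refine upper h g (β := 0) (γ := 2 * (2 * t - 3) / (1 + (2 * t - 3) ^ 2) ^ 2) (ζ := 0)
      (fun v => ?_) (c := 1 / (1 + (2 * t - 3) ^ 2))
      (show 1 / (1 + (2 * t - 3) ^ 2) ^ 2 + 0 + (2 * t - 3) ^ 2 / (1 + (2 * t - 3) ^ 2) ^ 2 =
        1 / (1 + (2 * t - 3) ^ 2) by field_simp; ring) hε
    have := Run7.h988.ST.cant_ineq (Run7.h988.ST.reg (φ v) (ψ v)) hs
    rw [show (2 * t - 3 + 3) / 2 = t by ring] at this
    convert this using 1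

end Pool.Agent.Results.MP_c481b3_nt.GenericSurfaces
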