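import Pool.Agent.Run7.h209.ST.Lin

/-!
# Laws of the Frobenius classes of products of Jacobians of curves on surfaces

Let `W_l` be fixed surfaces with `#W_l(F_q) = q ^ 2 + O(q)` (the projective plane; smooth surfaces with `b_1 = 0`), `F_l` a form
of degree `δ_l` with integer coefficients, `C_l` the curve `W_l ∩ {F_l = 0}` and `J_l` its Jacobian. For a prime `p` of good
reduction and `q = p ^ j`, `x_{l, j}(p) = (q + 1 - #C_l(F_q)) / √q` is the trace of the `j`-th power of the normalised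
Frobenius class of `J_l` at `p`. Every continuous class function on the Sato-Tate group that depends on finitely many of the
traces is a continuous function of the `x_{l, j}`, for instance the coefficients of the characteristic polynomial of Frobenius
on the products `A = ∏ J_l ^ {r_l}`.

It is proved, unconditionally, for almost all `(F_l)` of large degree and for the primes `p ≤ Y`, simultaneously for all large
`Y`, for fixed forms with integer coefficients at least `8 Y ^ 3` in range: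

* every continuous function of the traces has the law predicted by the Sato-Tate conjecture for the group `∏ USp(2 g_l)`
  in the limit `g_l → ∞`, up to `η`;
* the traces of Frobenius (or of a power of Frobenius) of all abelian varieties `A = ∏ J_l ^ {r_l}` have, simultaneously,
  distribution functions that differ from the normal one by at most `5 / √m`.

The proof uses the moments of the traces (helper3, `Run7/h3/ST`), characteristic functions, the theorem of Lévy and the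
inequality of Esseen. Bad primes are not excluded (at them `x_{l, j}` is defined by the same formula).
-/

set_option autoImplicit false

namespace Pool.Agent.Results.MP_c481b3_nt.LawOfTracesOfJacobians

open Finset MeasureTheory ProbabilityTheory
open Pool.Agent.Y722.HS (Mon form)
open Run7.h209.ST (points box Most)
open scoped NNReal

/-- The homogeneous equations `S` define `W` in `P ^ n` with `|#W(F_q) - q ^ 2| ≤ C₀ q` for all `q = p ^ j`, `1 ≤ j ≤ J`. -/
def IsSurface {n : ℕ} (J : ℕ) (C₀ : ℝ) (S : Set (MvPolynomial (Fin (n + 1)) ℤ)) : Prop :=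
  (∀ G ∈ S, ∃ d, G.IsHomogeneous d) ∧
    ∀ p : ℕ, p.Prime → ∀ j ∈ Icc 1 J, |(points p j S : ℝ) - ((p : ℝ) ^ j) ^ 2| ≤ C₀ * (p : ℝ) ^ j

/-- `(q + 1 - #C(F_q)) / √q`, `q = p ^ j`, for the curve `C = W ∩ {F = 0}`: the trace of the `j`-th power of the normalised
Frobenius class of its Jacobian. -/
noncomputable def frob {n : ℕ} (S : Set (MvPolynomial (Fin (n + 1)) ℤ)) (F : MvPolynomial (Fin (n + 1)) ℤ) (p j : ℕ) : ℝ :=
  ((p : ℝ) ^ j + 1 - (points p j (S ∪ {F}) : ℝ)) / Real.sqrt p ^ j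

/-- The law of independent normal variables, indexed by the members `l` of the family and `j = 1, …, J`, of variance `j` and of
mean `-1` (`j` even) or `0` (`j` odd). -/
noncomputable def symplecticLaw (Λ : Type) [Fintype Λ] (J : ℕ) : Measure (Λ × Fin J → ℝ) :=
  Measure.pi fun i => gaussianReal (if Even (i.2.1 + 1) then -1 else 0) ((i.2.1 + 1 : ℕ) : ℝ≥0)

open scoped Classical in
/-- The proportion of the primes `p ≤ Y` with the property `P`. -/
noncomputable def freq (Y : ℕ) (P : ℕ → Prop) : ℝ :=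
  (({p ∈ Icc 1 Y | p.Prime ∧ P p}.card : ℕ) : ℝ) / ({p ∈ Icc 1 Y | p.Prime}.card : ℕ)

lemma freq_eq (Y : ℕ) (P : ℕ → Prop) [DecidablePred P] : freq Y P = (({p ∈ Run7.h209.ST.pr Y | P p}.card : ℕ) : ℝ) / (Run7.h209.ST.pr Y).card := by
  unfold freq Run7.h209.ST.pr
  rw [filter_filter]
  congr!

lemma frob_eq {n : ℕ} (S : Set (MvPolynomial (Fin (n + 1)) ℤ)) (F : MvPolynomial (Fin (n + 1)) ℤ) (p j : ℕ) :
    Run7.h209.ST.trace S F 2 ((p : ℝ) ^ j + 1) p j = frob S F p j := by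
  unfold Run7.h209.ST.trace frob
  norm_num
  ring

lemma hyp {n J : ℕ} {C₀ : ℝ} {S : Set (MvPolynomial (Fin (n + 1)) ℤ)} (hS : IsSurface J C₀ S) (p : ℕ) (hp : p.Prime) (j : ℕ) (hj : j ∈ Icc 1 J) :
    |(points p j S : ℝ) - (p : ℝ) ^ (j * 2)| ≤ (|C₀| + 1) * ((p : ℝ) ^ (j * 2) / Real.sqrt p) ∧
    |(points p j S : ℝ) / (p : ℝ) ^ j - ((p : ℝ) ^ j + 1)| ≤ (|C₀| + 1) * (Real.sqrt p ^ (j * (2 - 1)) / Real.sqrt p) :=
  Run7.h209.ST.hW_surf hp (mem_Icc.1 hj).1 rfl (abs_nonneg _)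
    ((hS.2 p hp j hj).trans (mul_le_mul_of_nonneg_right (le_abs_self _) (by positivity)))

lemma most_mono {κ : Type} [Fintype κ] [DecidableEq κ] {C C' : ℝ} (h : C ≤ C') {A : ℕ → ℝ → (κ → ℤ) → Prop} (hA : Most C A) : Most C' A := by
  intro N L T hT X₀ hX₀
  refine (hA N L T hT X₀ hX₀).trans ?_
  refine mul_le_mul_of_nonneg_right (mul_le_mul_of_nonneg_right h ?_) (prod_nonneg fun i _ => Nat.cast_nonneg _)
  exact Real.rpow_nonneg (Nat.cast_nonneg _) _

/-- **The laws of the Frobenius classes of almost all products of Jacobians.** -/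
theorem result :
    -- continuous functions of the traces of all `x_p ^ j`, `j ≤ J`
    (∀ (Λ : Type) [Fintype Λ] [DecidableEq Λ] (J k : ℕ) (Φ : (Λ × Fin J → ℝ) → Fin k → ℝ) (A : Set (Fin k → ℝ)), Continuous Φ →
      MeasurableSet A → symplecticLaw Λ J (Φ ⁻¹' frontier A) = 0 → ∀ η : ℝ, 0 < η → ∃ δ₀ : ℕ,
      ∀ (n δ : Λ → ℕ) (S : ∀ l, Set (MvPolynomial (Fin (n l + 1)) ℤ)) (C₀ : ℝ), (∀ l, IsSurface J C₀ (S l)) → (∀ l, δ₀ ≤ δ l) →
      ∃ C : ℝ, Most C fun X₀ T (t : (Σ l, Mon (n l) (δ l)) → ℤ) => ∀ Y : ℕ, X₀ ≤ Y → 8 * (Y : ℝ) ^ 3 ≤ T →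
        |freq Y (fun p => Φ (fun i => frob (S i.1) (form fun m => t ⟨i.1, m⟩) p (i.2 + 1)) ∈ A) -
          (symplecticLaw Λ J (Φ ⁻¹' A)).toReal| ≤ η) ∧
    -- the trace of `x_p ^ j` for all products `∏ J_l ^ {r_l}`, with a rate
    (∀ (Λ : Type) [Fintype Λ] [DecidableEq Λ] (j m : ℕ), 1 ≤ j → 1 ≤ m →
      ∀ (n δ : Λ → ℕ) (S : ∀ l, Set (MvPolynomial (Fin (n l + 1)) ℤ)) (C₀ : ℝ), (∀ l, IsSurface j C₀ (S l)) → (∀ l, 4 * (j * m) ≤ δ l + 1) →
      ∃ C : ℝ, Most C fun X₀ T (t : (Σ l, Mon (n l) (δ l)) → ℤ) => ∀ Y : ℕ, X₀ ≤ Y → 8 * (Y : ℝ) ^ 3 ≤ T →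
        ∀ r : Λ → ℝ, r ≠ 0 → ∀ x : ℝ,
        |freq Y (fun p => ∑ l, r l * frob (S l) (form fun m => t ⟨l, m⟩) p j ≤ (if Even j then -∑ l, r l else 0) + x * √(j * ∑ l, r l ^ 2)) -
          (gaussianReal 0 1).real (Set.Iic x)| ≤ 5 / √(m : ℝ)) := by
  classical
  refine ⟨fun Λ _ _ J k Φ A hΦ hAm hA η hη => ?_, fun Λ _ _ j m hj hm n δ S C₀ hS hδ => ?_⟩
  · have hs : ∀ l : Λ, ((fun _ : Λ => (-1 : ℝ)) l) ^ 2 = 1 := fun _ => by norm_num
    have hlaw : symplecticLaw Λ J = Run7.h209.ST.nrm (Run7.h209.ST.cc J fun _ : Λ => (-1 : ℝ)) (Run7.h209.ST.vv J) := by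
      unfold symplecticLaw Run7.h209.ST.nrm Run7.h209.ST.cc Run7.h209.ST.vv Run7.h3.ST.eta
      congr 1
      funext i
      congr 1
      split_ifs <;> norm_num
    have hA0 : Run7.h209.ST.nrm (Run7.h209.ST.cc J fun _ : Λ => (-1 : ℝ)) (Run7.h209.ST.vv J) (frontier (Φ ⁻¹' A)) = 0 := by
      rw [hlaw] at hA
      exact measure_mono_null (hΦ.frontier_preimage_subset A) hA
    obtain ⟨δ₀, hδ₀⟩ := Run7.h209.ST.law_gen J hs (hΦ.measurable hAm) hA0 hη
    refine ⟨δ₀, fun n δ S C₀ hS hδ => ?_⟩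
    obtain ⟨C, hC, h1⟩ := hδ₀ n (fun _ => 2) δ S (|C₀| + 1) (fun _ p j => (p : ℝ) ^ j + 1) (fun _ => le_rfl) (fun _ => by norm_num) hδ
      (fun l => (hS l).1) (fun l p hp j hj => (hyp (hS l) p hp j hj).1) (fun l p hp j hj => (hyp (hS l) p hp j hj).2)
    refine ⟨C, fun N L T hT X₀ hX₀ => le_trans (le_of_eq ?_) (h1 N L T hT X₀ hX₀)⟩
    congr 3
    ext t
    rw [hlaw]
    simp only [freq_eq, frob_eq, Set.mem_preimage]
  · obtain ⟨C, hC, h1⟩ := Run7.h209.ST.lin_rate j m hj hm n (fun _ => 2) δ S (|C₀| + 1) (fun _ p j => (p : ℝ) ^ j + 1) (fun _ => le_rfl) hδ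
      (fun l => (hS l).1) (fun l p hp j hj => (hyp (hS l) p hp j hj).1) (fun l p hp j hj => (hyp (hS l) p hp j hj).2)
    refine ⟨C, fun N L T hT X₀ hX₀ => le_trans ?_ (h1 N L T hT X₀ hX₀)⟩
    refine Nat.cast_le.2 (Set.ncard_le_ncard ?_ (Set.Finite.subset (finite_toSet (box N L)) fun t ht => ht.1))
    rintro t ⟨ht, hnt⟩
    refine ⟨ht, fun hgood => hnt fun Y hXY hYT r hr x => ?_⟩
    have hρ : 0 < ∑ l, r l ^ 2 := by
      obtain ⟨l, hl⟩ := Function.ne_iff.1 hr
      have h2 := single_le_sum (f := fun l => r l ^ 2) (fun _ _ => sq_nonneg _) (mem_univ l)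
      have h3 : 0 < r l ^ 2 := by
        have : r l ≠ 0 := hl
        positivity
      exact lt_of_lt_of_le h3 h2
    have hρ' : 0 < √(∑ l, r l ^ 2) := Real.sqrt_pos.2 hρ
    have h2 := hgood Y hXY hYT (fun l => r l / √(∑ l, r l ^ 2)) (by
      simp only [div_pow]
      rw [← sum_div, Real.sq_sqrt hρ.le, div_self hρ.ne']) x
    simp only [freq_eq]
    have h3 : ∀ p : ℕ, (∑ l, r l / √(∑ l, r l ^ 2) * (Run7.h209.ST.trace (S l) (form fun m => t ⟨l, m⟩) 2 ((p : ℝ) ^ j + 1) p j -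
        (-1) ^ (2 - 1) * Run7.h3.ST.eta j) ≤ x * √(j : ℝ)) ↔
        (∑ l, r l * frob (S l) (form fun m => t ⟨l, m⟩) p j ≤ (if Even j then -∑ l, r l else 0) + x * √(j * ∑ l, r l ^ 2)) := by
      intro p
      have h4 : ∑ l, r l / √(∑ l, r l ^ 2) * (Run7.h209.ST.trace (S l) (form fun m => t ⟨l, m⟩) 2 ((p : ℝ) ^ j + 1) p j -
          (-1) ^ (2 - 1) * Run7.h3.ST.eta j) =
          (∑ l, r l * frob (S l) (form fun m => t ⟨l, m⟩) p j - (if Even j then -∑ l, r l else 0)) / √(∑ l, r l ^ 2) := by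
        simp only [frob_eq]
        unfold Run7.h3.ST.eta
        split_ifs
        · rw [sub_neg_eq_add, ← sum_add_distrib, sum_div]
          refine sum_congr rfl fun l _ => ?_
          norm_num
          ring
        · rw [sub_zero, sum_div]
          refine sum_congr rfl fun l _ => ?_
          norm_num
          ring
      rw [h4, div_le_iff₀ hρ', sub_le_iff_le_add, Real.sqrt_mul (Nat.cast_nonneg _)]
      have h5 : x * √(j : ℝ) * √(∑ l, r l ^ 2) + (if Even j then -∑ l, r l else 0) =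
          (if Even j then -∑ l, r l else 0) + x * (√(j : ℝ) * √(∑ l, r l ^ 2)) := by ring
      rw [h5]
    have h6 := filter_congr (s := Run7.h209.ST.pr Y) (fun p _ => h3 p)
    rw [← h6]
    convert! h2 using 4

end Pool.Agent.Results.MP_c481b3_nt.LawOfTracesOfJacobians
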