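import Mathlib
import Pool.Agent.Run7.h911.NT4

/-!
# The Sato-Tate conjecture for products of three elliptic curves: sign patterns and conditional signs

Let `K` be a totally real field and `A = E_0 × E_1 × E_2` a product of three elliptic curves over `K` without complex
multiplication, no two of which are isogenous over an algebraic closure. Then `ST(A) = SU(2)³`, and the class of a
prime `v` of good reduction is given by three angles `θ_i(v) ∈ [0, π]`; the trace of `E_i` at `v` is
`2 √(N v) cos θ_i(v)`. The conjecture predicts that the triples of angles are equidistributed for the product of three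
Sato-Tate measures. It is known for each curve and for each pair of curves; for the triples it would need the
`L`-functions of all `Sym^a E_0 ⊗ Sym^b E_1 ⊗ Sym^c E_2`, which are not known to be without zeros and poles
for `Re s = 1`. We prove the following parts of it, with natural densities:

* In every interval `[a, b]` of angles `θ_k` (of any positive length, for every `k`), the product of the traces of the
  other two curves takes both signs, each for a proportion of at least `3/40` of the primes of the interval.
* Each of the eight patterns of signs of the three traces occurs with a lower density of at least `3/160` and an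
  upper density of at most `37/160` (the conjecture predicts `1/8`).
* The densities of two patterns which differ in one sign have the sum `1/4` (this follows from the pairs).

The equidistribution for each curve and each pair does not imply any of the first two statements: it is consistent with
`a_v(E_0) a_v(E_1) a_v(E_2) ≥ 0` for all `v`.

The structure `Triple` (`Pool/Agent/Run7/h911/NT3.lean`) lists what is used; it is known: the `L`-functions of
`Sym^a E_i ⊗ Sym^b E_j` and of `E_i ⊗ E_j ⊗ Sym^c E_k` have local continuations without zeros and poles at all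
points of the line `Re s = 1`. (The symmetric powers of the three curves are automorphic over a common totally real
Galois extension of `K`; there `E_i ⊗ E_j` is automorphic on `GL(4)` by Ramakrishnan, and cuspidal; the theorems of Jacquet,
Piatetski-Shapiro, Shalika and Shahidi on Rankin-Selberg `L`-functions apply, and Brauer's theorem gives the statement
over `K`.)

Method. With the Tauberian theorem (starting file `Pool/Agent/TH553/ST/Taub3.lean`) the averages of
`U_a(θ_i) U_b(θ_j)` and of `x_i x_j U_c(θ_k)`, `x_i = 2 cos θ_i`, vanish, for all degrees `c`. So `x_i x_j` has mean zero on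
every interval of `θ_k`, while the joint laws of `θ_i`, `θ_k` and of `θ_j`, `θ_k` are known. This bounds the mass
of `x_i x_j > 0` from below: `1 (x_i x_j > 0) ≥ x_i x_j / 5 + f(x_i) + f(x_j)` with
`f(x) = (min(|x|, 1) - 1/2) / 5`, whose Sato-Tate mean is more than `3/80`.
-/

set_option autoImplicit false

namespace Pool.Agent.Results.MP_c481b3_nt.ProductsOfThreeCurves

open NumberField IsDedekindDomain Filter Topology
open Run7.h911.NT (Triple)

variable {K : Type} [Field K] [NumberField K]

/-- the proportion of the primes with `P` among the primes of norm at most `N` -/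
noncomputable def density (P : HeightOneSpectrum (𝓞 K) → Prop) (N : ℕ) : ℝ :=
  (Nat.card {v : HeightOneSpectrum (𝓞 K) // Ideal.absNorm v.asIdeal ≤ N ∧ P v} : ℝ) /
    Nat.card {v : HeightOneSpectrum (𝓞 K) // Ideal.absNorm v.asIdeal ≤ N}

theorem density_eq (P : HeightOneSpectrum (𝓞 K) → Prop) (N : ℕ) :
    density P N = Run7.h911.NT.avg (fun v => Run7.h911.NT.b2r (P v)) N := by
  classical
  unfold density Run7.h911.NT.avg
  have h1 : Nat.card {v : HeightOneSpectrum (𝓞 K) // Ideal.absNorm v.asIdeal ≤ N} =
      (Pool.Agent.W540.BE.upto K N).card := Nat.subtype_card _ fun v => Pool.Agent.W540.BE.mem_upto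
  have h2 : Nat.card {v : HeightOneSpectrum (𝓞 K) // Ideal.absNorm v.asIdeal ≤ N ∧ P v} =
      ((Pool.Agent.W540.BE.upto K N).filter P).card := Nat.subtype_card _ fun v => by
    rw [Finset.mem_filter]
    exact and_congr_left fun _ => Pool.Agent.W540.BE.mem_upto
  rw [h1, h2, Finset.card_filter]
  congr 1
  push_cast
  refine Finset.sum_congr rfl fun v _ => ?_
  unfold Run7.h911.NT.b2r
  congr

theorem b2r_and (P Q : Prop) : Run7.h911.NT.b2r (P ∧ Q) = Run7.h911.NT.b2r P * Run7.h911.NT.b2r Q := by
  classical
  unfold Run7.h911.NT.b2r
  by_cases hP : P <;> by_cases hQ : Q <;> simp [hP, hQ]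

theorem ind_eq (a b t : ℝ) : Run7.h911.ST.ind a b t = Run7.h911.NT.b2r (a ≤ t ∧ t ≤ b) := by
  classical
  unfold Run7.h911.ST.ind Run7.h911.NT.b2r
  by_cases h : a ≤ t ∧ t ≤ b
  · rw [if_pos h, if_pos (Set.mem_Icc.2 h)]
  · rw [if_neg h, if_neg (fun h' => h (Set.mem_Icc.1 h'))]

theorem pattern_eq (θ : Fin 3 → HeightOneSpectrum (𝓞 K) → ℝ) (s : Fin 3 → ℝ) (N : ℕ) :
    density (fun v => ∀ i, 0 < s i * Real.cos (θ i v)) N =
      Run7.h911.NT.avg (fun v => Run7.h911.NT.e (s 0) (θ 0 v) * Run7.h911.NT.e (s 1) (θ 1 v) *
        Run7.h911.NT.e (s 2) (θ 2 v)) N := by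
  rw [density_eq]
  congr 1
  funext v
  have : (∀ i, 0 < s i * Real.cos (θ i v)) ↔ ((0 < s 0 * Real.cos (θ 0 v) ∧
      0 < s 1 * Real.cos (θ 1 v)) ∧ 0 < s 2 * Real.cos (θ 2 v)) := by
    constructor
    · intro h
      exact ⟨⟨h 0, h 1⟩, h 2⟩
    · rintro ⟨⟨h0, h1⟩, h2⟩ i
      fin_cases i
      · exact h0
      · exact h1
      · exact h2
  rw [this, b2r_and, b2r_and]
  rfl

/-- **Partial equidistribution for products of three elliptic curves.** `θ i v` is the Frobenius angle of the
`i`-th curve at the prime `v` of `K`. -/
theorem result {θ : Fin 3 → HeightOneSpectrum (𝓞 K) → ℝ} (h : Triple θ) :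
    -- both signs of the product of two traces in every interval of the third angle
    (∀ i j k : Fin 3, i ≠ j → i ≠ k → j ≠ k → ∀ s : ℝ, (s = 1 ∨ s = -1) →
      ∀ a b : ℝ, 0 ≤ a → a < b → b ≤ Real.pi → ∀ ε : ℝ, 0 < ε → ∀ᶠ N : ℕ in atTop,
        (3 / 40 - ε) * density (fun v => a ≤ θ k v ∧ θ k v ≤ b) N ≤
          density (fun v => 0 < s * (Real.cos (θ i v) * Real.cos (θ j v)) ∧
            (a ≤ θ k v ∧ θ k v ≤ b)) N) ∧
    -- the eight patterns of signs
    (∀ s : Fin 3 → ℝ, (∀ i, s i = 1 ∨ s i = -1) → ∀ ε : ℝ, 0 < ε → ∀ᶠ N : ℕ in atTop,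
      3 / 160 - ε ≤ density (fun v => ∀ i, 0 < s i * Real.cos (θ i v)) N ∧
      density (fun v => ∀ i, 0 < s i * Real.cos (θ i v)) N ≤ 37 / 160 + ε) ∧
    -- two patterns which differ in one sign
    (∀ s : Fin 3 → ℝ, (∀ i, s i = 1 ∨ s i = -1) → ∀ k : Fin 3,
      Tendsto (fun N => density (fun v => ∀ i, 0 < s i * Real.cos (θ i v)) N +
        density (fun v => ∀ i, 0 < Function.update s k (-s k) i * Real.cos (θ i v)) N)
        atTop (𝓝 (1 / 4))) := by
  refine ⟨fun i j k hij hik hjk s hs a b h0 hab hb ε hε => ?_, fun s hs ε hε => ?_,
    fun s hs k => ?_⟩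
  · filter_upwards [Run7.h911.NT.sign_interval h hij hik hjk hs h0 hab hb hε] with N hN
    rw [density_eq, density_eq]
    simp only [b2r_and (0 < s * _), ← ind_eq]
    exact hN
  · have h1 := Run7.h911.NT.pattern_lower h (i := 0) (j := 1) (k := 2) (by decide) (by decide)
      (by decide) (hs 0) (hs 1) (hs 2) hε
    have h2 := Run7.h911.NT.pattern_upper h (i := 0) (j := 1) (k := 2) (by decide) (by decide)
      (by decide) (hs 0) (hs 1) (hs 2) hε
    filter_upwards [h1, h2] with N hN1 hN2
    rw [pattern_eq]
    exact ⟨hN1, hN2⟩
  · simp only [pattern_eq]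
    fin_cases k
    · have := Run7.h911.NT.pattern_sum h (i := 1) (j := 2) (k := 0) (by decide) (hs 1) (hs 2) (hs 0)
      refine this.congr fun N => ?_
      congr 1
      · congr 1
        funext v
        ring
      · congr 1
        funext v
        simp
        ring
    · have := Run7.h911.NT.pattern_sum h (i := 0) (j := 2) (k := 1) (by decide) (hs 0) (hs 2) (hs 1)
      refine this.congr fun N => ?_
      congr 1
      · congr 1
        funext v
        ring
      · congr 1
        funext v
        simp
        ring
    · have := Run7.h911.NT.pattern_sum h (i := 0) (j := 1) (k := 2) (by decide) (hs 0) (hs 1) (hs 2)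
      refine this.congr fun N => ?_
      congr 1

end Pool.Agent.Results.MP_c481b3_nt.ProductsOfThreeCurves
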